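import Pool.Agent.H87.AX.Targets4
import Pool.Agent.H87.SN.Tools
import Pool.Agent.H27.SH.MON

/-!
# Row MVX of the board axs (helper42), MP_2697e3_an

Mean value inequality for `lap f >= - L f - b + div X`.
-/

set_option autoImplicit false

namespace Pool.Agent.H42.AX

open Pool.Agent.H87.SN Pool.Agent.H87.SH Pool.Agent.H87.AX
open MeasureTheory Metric Set Filter Topology
open scoped ContDiff RealInnerProductSpace ENNReal

variable {n : ℕ}

theorem sc_fd {F : Type*} [NormedAddCommGroup F] [NormedSpace ℝ F] (v : E n → F) (c : E n)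
    (r : ℝ) (y : E n) :
    fderiv ℝ (fun y => v (c + r • y)) y = r • fderiv ℝ v (c + r • y) := by
  have h1 := fderiv_comp_smul (𝕜 := ℝ) (f := fun z => v (c + z)) (x := y) r
  rw [fderiv_comp_add_left] at h1
  exact h1

theorem sc_fd2 (v : E n → ℝ) (c : E n) (r : ℝ) (y : E n) :
    fderiv ℝ (fderiv ℝ (fun y => v (c + r • y))) y =
    r • r • fderiv ℝ (fderiv ℝ v) (c + r • y) := by
  have h1 : fderiv ℝ (fun y => v (c + r • y)) = r • fun y => fderiv ℝ v (c + r • y) := by
    funext y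
    rw [sc_fd]
    rfl
  rw [h1]
  have h2 := congrFun (fderiv_const_smul_field (𝕜 := ℝ)
    (f := fun y => fderiv ℝ v (c + r • y)) r) y
  rw [Pi.smul_apply, sc_fd] at h2
  exact h2

theorem sc_lp (v : E n → ℝ) (c : E n) (r : ℝ) (y : E n) :
    lap (fun y => v (c + r • y)) y = r ^ 2 * lap v (c + r • y) := by
  unfold lap
  rw [sc_fd2, Finset.mul_sum]
  refine Finset.sum_congr rfl fun i _ => ?_
  rw [smul_apply, smul_apply, smul_apply, smul_apply, smul_smul, sq, smul_eq_mul]

/-- the domain of the scaled function -/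
def US (x : E n) (r s : ℝ) : Set (E n) := {v | x + s • v ∈ ball x r}

theorem US_open (x : E n) (r s : ℝ) : IsOpen (US x r s) :=
  isOpen_ball.preimage (by fun_prop)

theorem mem_US (x : E n) {r s : ℝ} (hs : |s| < r) {v : E n} (hv : ‖v‖ ≤ 1) : v ∈ US x r s := by
  show x + s • v ∈ ball x r
  rw [mem_ball, dist_eq_norm, add_sub_cancel_left, norm_smul, Real.norm_eq_abs]
  have h1 : |s| * ‖v‖ ≤ |s| * 1 := mul_le_mul_of_nonneg_left hv (abs_nonneg s)
  linarith

theorem US_sub (x : E n) {r s : ℝ} (hs : |s| < r) : closedBall (0 : E n) 1 ⊆ US x r s := by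
  intro v hv
  rw [mem_closedBall, dist_zero_right] at hv
  exact mem_US x hs hv

theorem US_maps (x : E n) (r s : ℝ) : MapsTo (fun v => x + s • v) (US x r s) (ball x r) :=
  fun _ hv => hv

theorem US_cont {G : Type*} [TopologicalSpace G] {f : E n → G} {x : E n} {r : ℝ}
    (hf : ContinuousOn f (ball x r)) (s : ℝ) :
    ContinuousOn (fun v => f (x + s • v)) (US x r s) :=
  hf.comp (by fun_prop) (US_maps x r s)

theorem US_cd {k : WithTop ℕ∞} {f : E n → ℝ} {x : E n} {r : ℝ}
    (hf : ContDiffOn ℝ k f (ball x r)) (s : ℝ) :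
    ContDiffOn ℝ k (fun v => f (x + s • v)) (US x r s) := by
  refine hf.comp ?_ (US_maps x r s)
  exact (contDiff_const.add (contDiff_id.const_smul s)).contDiffOn

/-- the derivative of the spherical mean -/
theorem F_deriv (hPHI : T_PHI) {f : E n → ℝ} {x : E n} {r : ℝ}
    (hf : ContDiffOn ℝ 1 f (ball x r)) {s₀ : ℝ} (hs₀ : |s₀| < r) :
    HasDerivAt (fun s : ℝ => ∫ v, phi v * f (x + s • v))
      (∫ v, phi v * fderiv ℝ f (x + s₀ • v) v) s₀ := by
  obtain ⟨hφ1, -, -, -, hφb, -, h0, -, hφc, -, hφt, -, -⟩ := hPHI n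
  obtain ⟨ρ, hρ1, hρ2⟩ := exists_between hs₀
  have hfd : ContinuousOn (fderiv ℝ f) (ball x r) :=
    (hf.fderiv_of_isOpen isOpen_ball (m := 0) (by norm_num)).continuousOn
  obtain ⟨M, hM⟩ := (isCompact_closedBall x ρ).exists_bound_of_continuousOn
    (hfd.mono (closedBall_subset_ball hρ2))
  have hρn : ball (0 : ℝ) ρ ∈ 𝓝 s₀ := by
    refine isOpen_ball.mem_nhds ?_
    rw [mem_ball, Real.dist_eq, sub_zero]
    exact hρ1
  have habs : ∀ s ∈ ball (0 : ℝ) ρ, |s| < ρ := by
    intro s hs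
    rw [mem_ball, Real.dist_eq, sub_zero] at hs
    exact hs
  refine (hasDerivAt_integral_of_dominated_loc_of_deriv_le (bound := fun v => M * phi v)
    (F := fun s v => phi v * f (x + s • v))
    (F' := fun s v => phi v * fderiv ℝ f (x + s • v) v)
    (s := ball 0 ρ) hρn ?_ ?_ ?_ ?_ ?_ ?_).2
  · filter_upwards [hρn] with s hs
    have h1 : |s| < r := (habs s hs).trans hρ2
    exact (int_mul (US_open x r s) hφ1.continuous hφc (hφt.trans (US_sub x h1))
      (US_cont hf.continuousOn s)).aestronglyMeasurable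
  · exact int_mul (US_open x r s₀) hφ1.continuous hφc (hφt.trans (US_sub x hs₀))
      (US_cont hf.continuousOn s₀)
  · exact (int_mul (US_open x r s₀) hφ1.continuous hφc (hφt.trans (US_sub x hs₀))
      ((US_cont hfd s₀).clm_apply continuousOn_id)).aestronglyMeasurable
  · refine Eventually.of_forall fun v s hs => ?_
    have hs' := habs s hs
    show ‖phi v * fderiv ℝ f (x + s • v) v‖ ≤ M * phi v
    by_cases hv : 1 ≤ ‖v‖
    · rw [(h0 v hv).1]
      simp
    · rw [not_le] at hv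
      have hmem : x + s • v ∈ closedBall x ρ := by
        rw [mem_closedBall, dist_eq_norm, add_sub_cancel_left, norm_smul, Real.norm_eq_abs]
        have h1 : |s| * ‖v‖ ≤ |s| * 1 := mul_le_mul_of_nonneg_left hv.le (abs_nonneg s)
        linarith
      have h2 := hM _ hmem
      have h3 : ‖fderiv ℝ f (x + s • v) v‖ ≤ M := by
        calc ‖fderiv ℝ f (x + s • v) v‖ ≤ ‖fderiv ℝ f (x + s • v)‖ * ‖v‖ :=
              ContinuousLinearMap.le_opNorm _ _
          _ ≤ ‖fderiv ℝ f (x + s • v)‖ * 1 :=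
              mul_le_mul_of_nonneg_left hv.le (norm_nonneg _)
          _ ≤ M := by rw [mul_one]; exact h2
      rw [norm_mul, Real.norm_eq_abs, abs_of_nonneg (hφb v).1, mul_comm]
      exact mul_le_mul_of_nonneg_right h3 (hφb v).1
  · exact (hφ1.continuous.integrable_of_hasCompactSupport hφc).const_mul M
  · refine Eventually.of_forall fun v s hs => ?_
    have hs' := habs s hs
    show HasDerivAt (fun s => phi v * f (x + s • v)) (phi v * fderiv ℝ f (x + s • v) v) s
    by_cases hv : 1 ≤ ‖v‖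
    · rw [(h0 v hv).1]
      simp only [zero_mul]
      exact hasDerivAt_const _ _
    · rw [not_le] at hv
      have hmem : x + s • v ∈ ball x r := mem_US x (hs'.trans hρ2) hv.le
      have h4 : HasFDerivAt f (fderiv ℝ f (x + s • v)) (x + s • v) :=
        ((hf.differentiableOn (by norm_num)).differentiableAt
          (isOpen_ball.mem_nhds hmem)).hasFDerivAt
      have h5 : HasDerivAt (fun s : ℝ => x + s • v) v s := by
        have h6 := ((hasDerivAt_id s).smul_const v).const_add x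
        rw [one_smul] at h6
        exact h6
      exact (h4.comp_hasDerivAt s h5).const_mul (phi v)

/-- Green's formula for the derivative -/
theorem F_green (hPHI : T_PHI) (hGRN : T_GRN) {f : E n → ℝ} {x : E n} {r : ℝ}
    (hf : ContDiffOn ℝ 2 f (ball x r)) {s : ℝ} (hs0 : 0 < s) (hs : s < r) :
    ∫ v, phi v * fderiv ℝ f (x + s • v) v = s * ∫ v, psi v * lap f (x + s • v) := by
  obtain ⟨-, hψ1, -, hψ', -, -, -, -, -, hψc, -, hψt, -⟩ := hPHI n
  have habs : |s| < r := by rw [abs_of_pos hs0]; exact hs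
  have h1 := hGRN n (US x r s) psi (fun v => f (x + s • v)) (US_open x r s) hψ1 hψc
    (hψt.trans (US_sub x habs)) (US_cd hf s)
  have e1 : (fun v => psi v * lap (fun v => f (x + s • v)) v) =
      fun v => s ^ 2 * (psi v * lap f (x + s • v)) := by
    funext v
    rw [sc_lp]
    ring
  have e2 : (fun v => ∑ i : Fin n, fderiv ℝ psi v (bv i) *
      fderiv ℝ (fun v => f (x + s • v)) v (bv i)) =
      fun v => (- s) * (phi v * fderiv ℝ f (x + s • v) v) := by
    funext v
    have e3 : fderiv ℝ f (x + s • v) v = ∑ i : Fin n, v i * fderiv ℝ f (x + s • v) (bv i) := by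
      conv_lhs => rw [← sum_bv v]
      rw [sum_bv, ← sum_bv v, map_sum, sum_bv]
      refine Finset.sum_congr rfl fun i _ => ?_
      rw [map_smul, smul_eq_mul]
    rw [e3, Finset.mul_sum, Finset.mul_sum]
    refine Finset.sum_congr rfl fun i _ => ?_
    rw [hψ', sc_fd, smul_apply, smul_eq_mul, H27.SH.inner_bv]
    ring
  rw [e1, e2, integral_const_mul, integral_const_mul] at h1
  have h2 : s * (∫ v, phi v * fderiv ℝ f (x + s • v) v) =
      s * (s * ∫ v, psi v * lap f (x + s • v)) := by linarith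
  exact mul_left_cancel₀ hs0.ne' h2

/-- integration by parts for the divergence -/
theorem F_div (hPHI : T_PHI) (hIBP : T_IBP) {X : Fin n → E n → ℝ} {x : E n} {r : ℝ}
    (hX : ∀ i, ContDiffOn ℝ 1 (X i) (ball x r)) {s : ℝ} (hs0 : 0 < s) (hs : s < r) :
    s * ∫ v, psi v * ∑ i : Fin n, fderiv ℝ (X i) (x + s • v) (bv i) =
      ∫ v, phi v * ∑ i : Fin n, v i * X i (x + s • v) := by
  obtain ⟨hφ1, hψ1, -, hψ', -, -, -, -, hφc, hψc, hφt, hψt, -⟩ := hPHI n
  have habs : |s| < r := by rw [abs_of_pos hs0]; exact hs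
  have hXd : ∀ i, ContinuousOn (fderiv ℝ (X i)) (ball x r) := fun i =>
    ((hX i).fderiv_of_isOpen isOpen_ball (m := 0) (by norm_num)).continuousOn
  have hi1 : ∀ i, Integrable (fun v => psi v * fderiv ℝ (X i) (x + s • v) (bv i)) := fun i =>
    int_mul (US_open x r s) hψ1.continuous hψc (hψt.trans (US_sub x habs))
      ((US_cont (hXd i) s).clm_apply continuousOn_const)
  have hi2 : ∀ i, Integrable (fun v => phi v * (v i * X i (x + s • v))) := fun i =>
    int_mul (US_open x r s) hφ1.continuous hφc (hφt.trans (US_sub x habs))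
      ((by fun_prop : Continuous fun v : E n => v i).continuousOn.mul
        (US_cont (hX i).continuousOn s))
  simp only [Finset.mul_sum]
  rw [integral_finsetSum _ fun i _ => hi1 i, integral_finsetSum _ fun i _ => hi2 i,
    Finset.mul_sum]
  refine Finset.sum_congr rfl fun i _ => ?_
  have h1 := hIBP.2 n (US x r s) psi (fun v => X i (x + s • v)) (bv i) (US_open x r s) hψ1 hψc
    (hψt.trans (US_sub x habs)) (US_cd (hX i) s)
  rw [← integral_const_mul]
  have e1 : (fun v => s * (psi v * fderiv ℝ (X i) (x + s • v) (bv i))) =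
      fun v => psi v * fderiv ℝ (fun v => X i (x + s • v)) v (bv i) := by
    funext v
    rw [sc_fd, smul_apply, smul_eq_mul]
    ring
  rw [e1, h1, ← integral_neg]
  refine integral_congr_ae (Eventually.of_forall fun v => ?_)
  show - (fderiv ℝ psi v (bv i) * X i (x + s • v)) = phi v * (v i * X i (x + s • v))
  rw [hψ', H27.SH.inner_bv]
  ring

/-- the differential inequality -/
theorem F_ineq (hPHI : T_PHI) (hIBP : T_IBP) (hGRN : T_GRN) {f : E n → ℝ}
    {X : Fin n → E n → ℝ} {x : E n} {r Λ b B : ℝ}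
    (hf : ContDiffOn ℝ 2 f (ball x r)) (hX : ∀ i, ContDiffOn ℝ 1 (X i) (ball x r))
    (hf0 : ∀ y ∈ ball x r, 0 ≤ f y) (hΛ : 0 ≤ Λ) (hb : 0 ≤ b) (hB : 0 ≤ B)
    (hXB : ∀ y ∈ ball x r, ∑ i : Fin n, X i y ^ 2 ≤ B ^ 2)
    (hl : ∀ y ∈ ball x r, - (Λ * f y) - b + ∑ i : Fin n, fderiv ℝ (X i) y (bv i) ≤ lap f y)
    {s : ℝ} (hs0 : 0 < s) (hs : s < r) :
    - (s * Λ / 8 * ∫ v, phi v * f (x + s • v)) - (s * b / 8 + B) * ∫ v : E n, phi v ≤
      ∫ v, phi v * fderiv ℝ f (x + s • v) v := by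
  rw [F_green hPHI hGRN hf hs0 hs]
  have hdiv := F_div hPHI hIBP hX hs0 hs
  obtain ⟨hφ1, hψ1, -, hψ', hφb, hψb, h0, -, hφc, hψc, hφt, hψt, -⟩ := hPHI n
  have habs : |s| < r := by rw [abs_of_pos hs0]; exact hs
  have hXd : ∀ i, ContinuousOn (fderiv ℝ (X i)) (ball x r) := fun i =>
    ((hX i).fderiv_of_isOpen isOpen_ball (m := 0) (by norm_num)).continuousOn
  have hmem : ∀ v : E n, ¬ 1 ≤ ‖v‖ → x + s • v ∈ ball x r := fun v hv =>
    mem_US x habs (not_le.mp hv).le
  have hφi : Integrable (phi (n := n)) := hφ1.continuous.integrable_of_hasCompactSupport hφc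
  have hφf : Integrable (fun v => phi v * f (x + s • v)) :=
    int_mul (US_open x r s) hφ1.continuous hφc (hφt.trans (US_sub x habs))
      (US_cont hf.continuousOn s)
  have hψl : Integrable (fun v => psi v * lap f (x + s • v)) :=
    int_mul (US_open x r s) hψ1.continuous hψc (hψt.trans (US_sub x habs))
      (US_cont (lap_cont isOpen_ball hf) s)
  have hψd : Integrable (fun v => psi v * ∑ i : Fin n, fderiv ℝ (X i) (x + s • v) (bv i)) :=
    int_mul (US_open x r s) hψ1.continuous hψc (hψt.trans (US_sub x habs))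
      (continuousOn_finsetSum _ fun i _ => (US_cont (hXd i) s).clm_apply continuousOn_const)
  have hφX : Integrable (fun v => phi v * ∑ i : Fin n, v i * X i (x + s • v)) :=
    int_mul (US_open x r s) hφ1.continuous hφc (hφt.trans (US_sub x habs))
      (continuousOn_finsetSum _ fun i _ =>
        (by fun_prop : Continuous fun v : E n => v i).continuousOn.mul
          (US_cont (hX i).continuousOn s))
  -- first comparison
  have hA : - (Λ / 8) * (∫ v, phi v * f (x + s • v)) - b / 8 * (∫ v : E n, phi v) +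
      ∫ v, psi v * ∑ i : Fin n, fderiv ℝ (X i) (x + s • v) (bv i) ≤
      ∫ v, psi v * lap f (x + s • v) := by
    have hi1 := hφf.const_mul (- (Λ / 8))
    have hi2 := hφi.const_mul (b / 8)
    have hi3 : Integrable (fun v => - (Λ / 8) * (phi v * f (x + s • v)) - b / 8 * phi v) :=
      hi1.sub hi2
    have hi4 : Integrable (fun v => - (Λ / 8) * (phi v * f (x + s • v)) - b / 8 * phi v +
        psi v * ∑ i : Fin n, fderiv ℝ (X i) (x + s • v) (bv i)) := hi3.add hψd
    have hE : - (Λ / 8) * (∫ v, phi v * f (x + s • v)) - b / 8 * (∫ v : E n, phi v) +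
        ∫ v, psi v * ∑ i : Fin n, fderiv ℝ (X i) (x + s • v) (bv i) =
        ∫ v, (- (Λ / 8) * (phi v * f (x + s • v)) - b / 8 * phi v +
          psi v * ∑ i : Fin n, fderiv ℝ (X i) (x + s • v) (bv i)) := by
      rw [integral_add hi3 hψd, integral_sub hi1 hi2, integral_const_mul, integral_const_mul]
    rw [hE]
    refine integral_mono hi4 hψl fun v => ?_
    show - (Λ / 8) * (phi v * f (x + s • v)) - b / 8 * phi v +
      psi v * ∑ i : Fin n, fderiv ℝ (X i) (x + s • v) (bv i) ≤ psi v * lap f (x + s • v)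
    by_cases hv : 1 ≤ ‖v‖
    · rw [(h0 v hv).1, (h0 v hv).2]
      simp
    · have h1 := hl _ (hmem v hv)
      have h2 := hf0 _ (hmem v hv)
      have h3 := mul_le_mul_of_nonneg_left h1 (hψb v).1
      have h4 : psi v * (Λ * f (x + s • v)) ≤ phi v / 8 * (Λ * f (x + s • v)) :=
        mul_le_mul_of_nonneg_right (hψb v).2 (mul_nonneg hΛ h2)
      have h5 : psi v * b ≤ phi v / 8 * b := mul_le_mul_of_nonneg_right (hψb v).2 hb
      nlinarith [h3, h4, h5]
  -- second comparison
  have hC : - B * (∫ v : E n, phi v) ≤ ∫ v, phi v * ∑ i : Fin n, v i * X i (x + s • v) := by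
    rw [← integral_const_mul]
    refine integral_mono (hφi.const_mul _) hφX fun v => ?_
    show - B * phi v ≤ phi v * ∑ i : Fin n, v i * X i (x + s • v)
    by_cases hv : 1 ≤ ‖v‖
    · rw [(h0 v hv).1]
      simp
    · have h1 := hXB _ (hmem v hv)
      have h2 : (∑ i : Fin n, v i * X i (x + s • v)) ^ 2 ≤
          (∑ i : Fin n, v i ^ 2) * ∑ i : Fin n, X i (x + s • v) ^ 2 :=
        Finset.sum_mul_sq_le_sq_mul_sq _ _ _
      have h3 : ∑ i : Fin n, v i ^ 2 = ‖v‖ ^ 2 := by
        rw [EuclideanSpace.norm_sq_eq]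
        refine Finset.sum_congr rfl fun i _ => ?_
        rw [Real.norm_eq_abs, sq_abs]
      have h4 : ‖v‖ ^ 2 ≤ 1 := by
        have := norm_nonneg v
        have := (not_le.mp hv).le
        nlinarith
      have h5 : (∑ i : Fin n, v i * X i (x + s • v)) ^ 2 ≤ B ^ 2 := by
        have h6 : 0 ≤ ∑ i : Fin n, X i (x + s • v) ^ 2 :=
          Finset.sum_nonneg fun i _ => sq_nonneg _
        calc (∑ i : Fin n, v i * X i (x + s • v)) ^ 2 ≤
              (∑ i : Fin n, v i ^ 2) * ∑ i : Fin n, X i (x + s • v) ^ 2 := h2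
          _ ≤ 1 * ∑ i : Fin n, X i (x + s • v) ^ 2 := by
              rw [h3]
              exact mul_le_mul_of_nonneg_right h4 h6
          _ ≤ B ^ 2 := by rw [one_mul]; exact h1
      have h7 : - B ≤ ∑ i : Fin n, v i * X i (x + s • v) := by
        have h8 := abs_le_of_sq_le_sq h5 hB
        exact (abs_le.mp h8).1
      have h9 := mul_le_mul_of_nonneg_left h7 (hφb v).1
      linarith
  have h6 := mul_le_mul_of_nonneg_left hA hs0.le
  have e : s * (- (Λ / 8) * (∫ v, phi v * f (x + s • v)) - b / 8 * (∫ v : E n, phi v) +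
      ∫ v, psi v * ∑ i : Fin n, fderiv ℝ (X i) (x + s • v) (bv i)) =
      - (s * Λ / 8 * ∫ v, phi v * f (x + s • v)) - s * b / 8 * (∫ v : E n, phi v) +
      s * ∫ v, psi v * ∑ i : Fin n, fderiv ℝ (X i) (x + s • v) (bv i) := by ring
  rw [e, hdiv] at h6
  linarith

/-- the integrated inequality -/
theorem F_bound (hPHI : T_PHI) (hIBP : T_IBP) (hGRN : T_GRN) {f : E n → ℝ}
    {X : Fin n → E n → ℝ} {x : E n} {r Λ b B : ℝ} (hr : 0 < r)
    (hf : ContDiffOn ℝ 2 f (ball x r)) (hX : ∀ i, ContDiffOn ℝ 1 (X i) (ball x r))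
    (hf0 : ∀ y ∈ ball x r, 0 ≤ f y) (hΛ : 0 ≤ Λ) (hΛr : Λ * r ^ 2 ≤ 16)
    (hb : 0 ≤ b) (hB : 0 ≤ B)
    (hXB : ∀ y ∈ ball x r, ∑ i : Fin n, X i y ^ 2 ≤ B ^ 2)
    (hl : ∀ y ∈ ball x r, - (Λ * f y) - b + ∑ i : Fin n, fderiv ℝ (X i) y (bv i) ≤ lap f y) :
    (∫ v : E n, phi v) * (f x - (r ^ 2 * b + r * B)) ≤
      2 * ∫ v, phi v * f (x + (r / 2) • v) := by
  set c₁ : ℝ := ∫ v : E n, phi v with hc₁
  have hc₁0 : 0 < c₁ := (hPHI n).2.2.2.2.2.2.2.2.2.2.2.2
  have hφb := (hPHI n).2.2.2.2.1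
  have h0 := (hPHI n).2.2.2.2.2.2.1
  set F : ℝ → ℝ := fun s => ∫ v, phi v * f (x + s • v) with hF
  set F' : ℝ → ℝ := fun s => ∫ v, phi v * fderiv ℝ f (x + s • v) v with hF'
  have hd : ∀ s : ℝ, |s| < r → HasDerivAt F (F' s) s := fun s hs =>
    F_deriv hPHI (hf.of_le (by norm_num)) hs
  have hF0 : ∀ s : ℝ, |s| < r → 0 ≤ F s := by
    intro s hs
    refine integral_nonneg fun v => ?_
    show 0 ≤ phi v * f (x + s • v)
    by_cases hv : 1 ≤ ‖v‖
    · rw [(h0 v hv).1]
      simp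
    · exact mul_nonneg (hφb v).1 (hf0 _ (mem_US x hs (not_le.mp hv).le))
  set H : ℝ → ℝ := fun s => F s * Real.exp (Λ * s ^ 2 / 16) + c₁ * (b * s ^ 2 / 8 + 2 * B * s)
    with hH
  have hexp : ∀ s : ℝ, 0 ≤ s → s ≤ r / 2 → Real.exp (Λ * s ^ 2 / 16) ≤ 2 := by
    intro s hs0 hs
    have h1 : Λ * s ^ 2 / 16 ≤ 1 / 4 := by
      have h2 : s ^ 2 ≤ (r / 2) ^ 2 := by nlinarith
      have h3 := mul_le_mul_of_nonneg_left h2 hΛ
      nlinarith
    have h4 : Real.exp (Λ * s ^ 2 / 16) ≤ Real.exp (1 / 4) := Real.exp_le_exp.mpr h1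
    have h5 : Real.exp (1 / 4) ≤ 2 := by
      have h6 := Real.exp_one_lt_d9
      have h7 : Real.exp (1 / 4) ^ 4 = Real.exp 1 := by
        rw [← Real.exp_nat_mul]
        norm_num
      by_contra hne
      rw [not_le] at hne
      have h8 : (2 : ℝ) ^ 4 < Real.exp (1 / 4) ^ 4 := by gcongr
      rw [h7] at h8
      norm_num at h8
      linarith
    exact h4.trans h5
  have hHd : ∀ s : ℝ, |s| < r → HasDerivAt H
      (F' s * Real.exp (Λ * s ^ 2 / 16) +
        F s * (Real.exp (Λ * s ^ 2 / 16) * (Λ * (2 * s) / 16)) +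
        c₁ * (b * (2 * s) / 8 + 2 * B)) s := by
    intro s hs
    have h1 : HasDerivAt (fun s : ℝ => Λ * s ^ 2 / 16) (Λ * (2 * s) / 16) s := by
      have h2 := ((hasDerivAt_pow 2 s).const_mul Λ).div_const 16
      refine h2.congr_deriv ?_
      norm_num
    have h3 := h1.exp
    have h4 : HasDerivAt (fun s : ℝ => c₁ * (b * s ^ 2 / 8 + 2 * B * s))
        (c₁ * (b * (2 * s) / 8 + 2 * B)) s := by
      have h5 := ((((hasDerivAt_pow 2 s).const_mul b).div_const 8).add
        ((hasDerivAt_id s).const_mul (2 * B))).const_mul c₁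
      refine h5.congr_deriv ?_
      norm_num
    exact ((hd s hs).mul h3).add h4
  have hmono : MonotoneOn H (Icc 0 (r / 2)) := by
    refine monotoneOn_of_deriv_nonneg (convex_Icc 0 (r / 2)) ?_ ?_ ?_
    · intro s hs
      refine (hHd s ?_).continuousAt.continuousWithinAt
      rw [abs_of_nonneg hs.1]
      linarith [hs.2]
    · intro s hs
      rw [interior_Icc] at hs
      refine (hHd s ?_).differentiableAt.differentiableWithinAt
      rw [abs_of_nonneg hs.1.le]
      linarith [hs.2]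
    · intro s hs
      rw [interior_Icc] at hs
      have habs : |s| < r := by
        rw [abs_of_nonneg hs.1.le]
        linarith [hs.2]
      rw [(hHd s habs).deriv]
      have h1 := F_ineq hPHI hIBP hGRN hf hX hf0 hΛ hb hB hXB hl hs.1 (by linarith [hs.2])
      have h1' : - (s * Λ / 8 * F s) - (s * b / 8 + B) * c₁ ≤ F' s := h1
      have h2 := hexp s hs.1.le hs.2.le
      have h3 := Real.exp_pos (Λ * s ^ 2 / 16)
      have h4 := mul_le_mul_of_nonneg_right h1' h3.le
      have h5 : 0 ≤ (s * b / 8 + B) * c₁ := by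
        have := hs.1.le
        positivity
      have h6 := mul_le_mul_of_nonneg_left h2 h5
      nlinarith [h4, h6]
  have h1 := hmono (left_mem_Icc.mpr (by linarith)) (right_mem_Icc.mpr (by linarith))
    (by linarith : (0 : ℝ) ≤ r / 2)
  have h2 : H 0 = c₁ * f x := by
    rw [hH]
    simp only [hF]
    simp only [zero_smul, add_zero]
    rw [integral_mul_const]
    simp
    exact Or.inl hc₁.symm
  have h3 : H (r / 2) = F (r / 2) * Real.exp (Λ * (r / 2) ^ 2 / 16) +
      c₁ * (b * (r / 2) ^ 2 / 8 + 2 * B * (r / 2)) := rfl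
  rw [h2, h3] at h1
  have h4 := hexp (r / 2) (by linarith) le_rfl
  have h5 := hF0 (r / 2) (by rw [abs_of_pos (by linarith)]; linarith)
  have h6 := mul_le_mul_of_nonneg_left h4 h5
  have h7 : c₁ * (b * (r / 2) ^ 2 / 8 + 2 * B * (r / 2)) ≤ c₁ * (r ^ 2 * b + r * B) := by
    refine mul_le_mul_of_nonneg_left ?_ hc₁0.le
    have : 0 ≤ b * r ^ 2 := by positivity
    nlinarith
  show c₁ * (f x - (r ^ 2 * b + r * B)) ≤ 2 * F (r / 2)
  rw [mul_sub]
  linarith

theorem pf_MVX (hPHI : T_PHI) (hIBP : T_IBP) (hGRN : T_GRN) : T_MVX := by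
  intro n
  set c₁ : ℝ := ∫ v : E n, phi v with hc₁
  have hφ1 := (hPHI n).1
  have hφb := (hPHI n).2.2.2.2.1
  have h0 := (hPHI n).2.2.2.2.2.2.1
  have hc₁0 : 0 < c₁ := (hPHI n).2.2.2.2.2.2.2.2.2.2.2.2
  refine ⟨max 1 (2 ^ (n + 1) / c₁), lt_max_of_lt_left one_pos, ?_⟩
  intro f X x r Λ b B hr hf hX hf0 hΛ hΛr hb hB hXB hl
  set C : ℝ := max 1 (2 ^ (n + 1) / c₁) with hC
  have hC1 : 1 ≤ C := le_max_left _ _
  have hC2 : 2 ^ (n + 1) / c₁ ≤ C := le_max_right _ _
  have hC0 : 0 < C := lt_of_lt_of_le one_pos hC1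
  have hmain := F_bound hPHI hIBP hGRN hr hf hX hf0 hΛ hΛr hb hB hXB hl
  set J : ℝ := ∫ y, phi ((r / 2)⁻¹ • (y - x)) * f y with hJ
  have hr2 : 0 < r / 2 := by linarith
  have hch : ∫ v, phi v * f (x + (r / 2) • v) = ((r / 2) ^ n)⁻¹ * J := by
    have h1 : ∀ v : E n, phi v * f (x + (r / 2) • v) =
        (fun w : E n => phi ((r / 2)⁻¹ • ((x + w) - x)) * f (x + w)) ((r / 2) • v) := by
      intro v
      show _ = phi ((r / 2)⁻¹ • ((x + (r / 2) • v) - x)) * f (x + (r / 2) • v)
      rw [add_sub_cancel_left, smul_smul, inv_mul_cancel₀ hr2.ne', one_smul]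
    rw [integral_congr_ae (Eventually.of_forall h1),
      Measure.integral_comp_smul volume
        (fun w : E n => phi ((r / 2)⁻¹ • ((x + w) - x)) * f (x + w)) (r / 2),
      integral_add_left_eq_self (fun w : E n => phi ((r / 2)⁻¹ • (w - x)) * f w) x, smul_eq_mul,
      finrank_euclideanSpace_fin, abs_of_pos (by positivity)]
  have hint : Integrable fun y => phi ((r / 2)⁻¹ • (y - x)) * f y :=
    H27.SH.int_scale hφ1.continuous (fun v hv => (h0 v hv).1) hr2 (by linarith)
      hf.continuousOn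
  have hzero : ∀ y, y ∉ ball x r → phi ((r / 2)⁻¹ • (y - x)) = 0 := by
    intro y hy
    refine (h0 _ ?_).1
    rw [mem_ball, dist_eq_norm, not_lt] at hy
    rw [norm_smul, norm_inv, Real.norm_eq_abs, abs_of_pos hr2, le_inv_mul_iff₀ hr2]
    linarith
  have hnn : ∀ y, 0 ≤ phi ((r / 2)⁻¹ • (y - x)) * f y := by
    intro y
    by_cases hy : y ∈ ball x r
    · exact mul_nonneg (hφb _).1 (hf0 y hy)
    · rw [hzero y hy, zero_mul]
  have hJ0 : 0 ≤ J := integral_nonneg hnn
  have hJle : ENNReal.ofReal J ≤ ∫⁻ y in ball x r, ENNReal.ofReal (f y) := by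
    rw [hJ, ofReal_integral_eq_lintegral_ofReal hint (Eventually.of_forall hnn),
      ← lintegral_indicator isOpen_ball.measurableSet]
    refine lintegral_mono fun y => ?_
    by_cases hy : y ∈ ball x r
    · rw [indicator_of_mem hy]
      refine ENNReal.ofReal_le_ofReal ?_
      have h1 := mul_le_mul_of_nonneg_right (hφb ((r / 2)⁻¹ • (y - x))).2 (hf0 y hy)
      linarith
    · rw [hzero y hy, zero_mul, ENNReal.ofReal_zero]
      exact zero_le
  have hreal : r ^ n * (f x - C * (r ^ 2 * b + r * B)) ≤ C * J := by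
    have hk : 0 ≤ r ^ 2 * b + r * B := by positivity
    have h1 : f x - C * (r ^ 2 * b + r * B) ≤ f x - (r ^ 2 * b + r * B) := by nlinarith
    have h2 : f x - (r ^ 2 * b + r * B) ≤ 2 / c₁ * (((r / 2) ^ n)⁻¹ * J) := by
      rw [hch] at hmain
      rw [div_mul_eq_mul_div, le_div_iff₀ hc₁0]
      linarith
    have hrn : 0 < r ^ n := by positivity
    have h3 : r ^ n * (2 / c₁ * (((r / 2) ^ n)⁻¹ * J)) = 2 ^ (n + 1) / c₁ * J := by
      rw [div_pow, pow_succ]
      field_simp
    calc r ^ n * (f x - C * (r ^ 2 * b + r * B)) ≤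
          r ^ n * (2 / c₁ * (((r / 2) ^ n)⁻¹ * J)) :=
            mul_le_mul_of_nonneg_left (h1.trans h2) hrn.le
      _ = 2 ^ (n + 1) / c₁ * J := h3
      _ ≤ C * J := mul_le_mul_of_nonneg_right hC2 hJ0
  calc ENNReal.ofReal (r ^ n * (f x - C * (r ^ 2 * b + r * B))) ≤ ENNReal.ofReal (C * J) :=
        ENNReal.ofReal_le_ofReal hreal
    _ = ENNReal.ofReal C * ENNReal.ofReal J := ENNReal.ofReal_mul hC0.le
    _ ≤ ENNReal.ofReal C * ∫⁻ y in ball x r, ENNReal.ofReal (f y) := by gcongr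

end Pool.Agent.H42.AX
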