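import Pool.Agent.H87.AX.Targets4
import Pool.Agent.H1.SH.STA

/-!
# Row STT of the board axs (helper42; adaptation of row STA of hlf by helper1), MP_2697e3_an

The first variation formula for a smooth map, without any equation.
-/

set_option autoImplicit false

namespace Pool.Agent.H42.AX

open Pool.Agent.H87.SN Pool.Agent.H87.SH Pool.Agent.H87.AX Pool.Agent.H1.SH
open MeasureTheory Metric Set Filter Topology
open scoped ContDiff RealInnerProductSpace ENNReal

theorem pf_STT (hIBP : Pool.Agent.H87.SN.T_IBP) : T_STT := by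
  intro n m U u hU hu X hX hXc hXs
  have h1 := H13.SN.smooth_fderiv hU hu
  have hb0 : ContDiffOn ℝ ∞ (fun x => nsq (fderiv ℝ u x)) U := by
    unfold nsq
    exact ContDiffOn.sum (fun i _ => (H13.SN.smooth_app h1 (bv i)).norm_sq ℝ)
  have hb : ∀ i j : Fin n, ContDiffOn ℝ ∞
      (fun y => ⟪fderiv ℝ u y (bv i), fderiv ℝ u y (bv j)⟫) U :=
    fun i j => (H13.SN.smooth_app h1 (bv i)).inner ℝ (H13.SN.smooth_app h1 (bv j))
  have hlapu : ContDiffOn ℝ ∞ (fun y => lap u y) U := by
    have h2 := H13.SN.smooth_fderiv hU h1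
    unfold lap
    exact ContDiffOn.sum (fun i _ => H13.SN.smooth_app (H13.SN.smooth_app h2 (bv i)) (bv i))
  have hbl : ∀ j : Fin n, ContDiffOn ℝ ∞
      (fun y => ⟪lap u y, fderiv ℝ u y (bv j)⟫) U :=
    fun j => hlapu.inner ℝ (H13.SN.smooth_app h1 (bv j))
  have one_le : (1 : WithTop ℕ∞) ≤ ((⊤ : ℕ∞) : WithTop ℕ∞) :=
    WithTop.coe_le_coe.mpr (le_top : (1 : ℕ∞) ≤ ⊤)
  -- the components
  have ha := fun j : Fin n => comp_cd hX j
  have hac := fun j : Fin n => comp_cs hXc j
  have has : ∀ j : Fin n, tsupport (fun x => X x j) ⊆ U := fun j => (comp_ts j).trans hXs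
  -- integrability of the terms
  have hint : ∀ (j : Fin n) (v : E n) (b : E n → ℝ), ContDiffOn ℝ ∞ b U →
      Integrable (fun x => (fderiv ℝ X x v) j * b x) := by
    intro j v b hb
    have e2 : (fun x => (fderiv ℝ X x v) j * b x) =
        fun x => (fun x => fderiv ℝ (fun x => X x j) x v) x * b x := by
      funext x
      show (fderiv ℝ X x v) j * b x = fderiv ℝ (fun x => X x j) x v * b x
      rw [comp_fd hX]
    rw [e2]
    have hsub : tsupport (fun x => fderiv ℝ (fun x => X x j) x v) ⊆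
        tsupport (fun x => X x j) := tsupport_fderiv_apply_subset ℝ v
    refine int_mul hU ?_ ?_ (hsub.trans (has j)) hb.continuousOn
    · exact ((ha j).continuous_fderiv (by norm_num)).clm_apply continuous_const
    · exact (hac j).of_isClosed_subset (isClosed_tsupport _) hsub
  have hint2 : ∀ (j : Fin n) (v : E n) (b : E n → ℝ), ContDiffOn ℝ ∞ b U →
      Integrable (fun x => X x j * fderiv ℝ b x v) := by
    intro j v b hb
    have h2 : ContDiffOn ℝ ∞ (fun x => fderiv ℝ b x v) U :=
      H13.SN.smooth_app (H13.SN.smooth_fderiv hU hb) v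
    exact int_mul hU (ha j).continuous (hac j) (has j) h2.continuousOn
  have hint3 : ∀ j : Fin n,
      Integrable (fun x => X x j * ⟪lap u x, fderiv ℝ u x (bv j)⟫) :=
    fun j => int_mul hU (ha j).continuous (hac j) (has j) (hbl j).continuousOn
  have hibp : ∀ (j : Fin n) (v : E n) (b : E n → ℝ), ContDiffOn ℝ ∞ b U →
      ∫ x, (fderiv ℝ X x v) j * b x = - ∫ x, X x j * fderiv ℝ b x v := by
    intro j v b hb
    have h := hIBP.2 n U (fun x => X x j) b v hU (ha j) (hac j) (has j) (hb.of_le one_le)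
    rw [h, neg_neg]
    refine integral_congr_ae (Filter.Eventually.of_forall fun x => ?_)
    show (fderiv ℝ X x v) j * b x = fderiv ℝ (fun x => X x j) x v * b x
    rw [comp_fd hX]
  -- one column
  have hcol : ∀ j : Fin n, ∫ x, (fderiv ℝ X x (bv j)) j * nsq (fderiv ℝ u x) =
      2 * (∑ i : Fin n, ∫ x, (fderiv ℝ X x (bv i)) j *
        ⟪fderiv ℝ u x (bv i), fderiv ℝ u x (bv j)⟫) +
      2 * ∫ x, X x j * ⟪lap u x, fderiv ℝ u x (bv j)⟫ := by
    intro j
    rw [hibp j (bv j) _ hb0]
    have e1 : ∀ i : Fin n, ∫ x, (fderiv ℝ X x (bv i)) j *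
        ⟪fderiv ℝ u x (bv i), fderiv ℝ u x (bv j)⟫ =
        - ∫ x, X x j * fderiv ℝ (fun y => ⟪fderiv ℝ u y (bv i), fderiv ℝ u y (bv j)⟫) x (bv i) :=
      fun i => hibp j (bv i) _ (hb i j)
    have hkey : ∫ x, X x j * fderiv ℝ (fun y => nsq (fderiv ℝ u y)) x (bv j) =
        2 * (∑ i : Fin n, ∫ x, X x j *
          fderiv ℝ (fun y => ⟪fderiv ℝ u y (bv i), fderiv ℝ u y (bv j)⟫) x (bv i)) -
        2 * ∫ x, X x j * ⟪lap u x, fderiv ℝ u x (bv j)⟫ := by
      rw [← integral_finsetSum _ fun i _ => hint2 j (bv i) _ (hb i j), ← integral_const_mul,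
        ← integral_const_mul, ← integral_sub
          ((integrable_finsetSum _ fun i _ => hint2 j (bv i) _ (hb i j)).const_mul 2)
          ((hint3 j).const_mul 2)]
      refine integral_congr_ae (Filter.Eventually.of_forall fun x => ?_)
      by_cases hx : x ∈ U
      · show X x j * fderiv ℝ (fun y => nsq (fderiv ℝ u y)) x (bv j) = 2 * (∑ i : Fin n,
          X x j * fderiv ℝ (fun y => ⟪fderiv ℝ u y (bv i), fderiv ℝ u y (bv j)⟫) x (bv i)) -
          2 * (X x j * ⟪lap u x, fderiv ℝ u x (bv j)⟫)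
        have hl : ∑ i : Fin n, fderiv ℝ (fderiv ℝ u) x (bv i) (bv i) = lap u x := rfl
        have h5 : ∑ i : Fin n,
            fderiv ℝ (fun y => ⟪fderiv ℝ u y (bv i), fderiv ℝ u y (bv j)⟫) x (bv i) =
            ⟪lap u x, fderiv ℝ u x (bv j)⟫ +
            ∑ i : Fin n, ⟪fderiv ℝ u x (bv i), fderiv ℝ (fderiv ℝ u) x (bv j) (bv i)⟫ := by
          rw [Finset.sum_congr rfl fun i _ => db hU hu hx i j, Finset.sum_add_distrib, ← sum_inner,
            hl]
        rw [H13.SN.dq hU hu hx (bv j), ← Finset.mul_sum, ← Finset.mul_sum, h5]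
        ring
      · have h0 : X x j = 0 := by
          have h6 : x ∉ tsupport (fun x => X x j) := fun h => hx (has j h)
          exact image_eq_zero_of_notMem_tsupport (f := fun x => X x j) h6
        simp [h0]
    rw [hkey, Finset.sum_congr rfl fun i _ => e1 i, Finset.sum_neg_distrib]
    ring
  -- the integrand
  have hF : (fun x => statF (fderiv ℝ u x) (fderiv ℝ X x)) = fun x =>
      ∑ j : Fin n, ((fderiv ℝ X x (bv j)) j * nsq (fderiv ℝ u x) -
        2 * ∑ i : Fin n, (fderiv ℝ X x (bv i)) j *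
          ⟪fderiv ℝ u x (bv i), fderiv ℝ u x (bv j)⟫) := by
    funext x
    unfold statF
    rw [Finset.sum_sub_distrib, ← Finset.mul_sum, ← Finset.sum_mul,
      Finset.sum_comm (f := fun j i : Fin n => (fderiv ℝ X x (bv i)) j *
          ⟪fderiv ℝ u x (bv i), fderiv ℝ u x (bv j)⟫), mul_comm]
    congr 2
    refine Finset.sum_congr rfl fun i _ => Finset.sum_congr rfl fun j _ => ?_
    rw [mul_comm]
  have hR : (fun x => ⟪fderiv ℝ u x (X x), lap u x⟫) = fun x =>
      ∑ j : Fin n, X x j * ⟪lap u x, fderiv ℝ u x (bv j)⟫ := by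
    funext x
    have e3 : fderiv ℝ u x (X x) = ∑ j : Fin n, X x j • fderiv ℝ u x (bv j) := by
      conv_lhs => rw [← sum_bv (X x)]
      rw [map_sum]
      exact Finset.sum_congr rfl fun j _ => map_smul _ _ _
    rw [e3, sum_inner]
    refine Finset.sum_congr rfl fun j _ => ?_
    rw [real_inner_smul_left, real_inner_comm]
  rw [hF, hR, integral_finsetSum, integral_finsetSum _ fun j _ => hint3 j, Finset.mul_sum]
  · refine Finset.sum_congr rfl fun j _ => ?_
    rw [integral_sub (hint j (bv j) _ hb0)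
      ((integrable_finsetSum _ fun i _ => hint j (bv i) _ (hb i j)).const_mul 2),
      integral_const_mul, integral_finsetSum _ fun i _ => hint j (bv i) _ (hb i j), hcol j]
    ring
  · intro j _
    exact (hint j (bv j) _ hb0).sub
      ((integrable_finsetSum _ fun i _ => hint j (bv i) _ (hb i j)).const_mul 2)

end Pool.Agent.H42.AX
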